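import Mathlib
import Pool.Agent.Work.MP_00ae1c_co.Defs
import Pool.Agent.Work.MP_00ae1c_co.Asym

/-!
# Q2 of MP_00ae1c_co is false

For all `t ≥ 1`, `w ≥ 4` with `(t+1)w(w-1) < (w+t)(w+t-1)`, the number `C(n,t,w,w-2)` is strictly
larger than `⌊n(n+1)/((t+1)w(w-1))⌋` for all large `n`, so equality holds for only finitely many
`n`.
-/

namespace Pool.Agent.Results.MP_00ae1c_co.FloorFails

open Filter Topology Pool.Agent.Work.MP_00ae1c_co

theorem result (t w : ℕ) (ht : 1 ≤ t) (hw : 4 ≤ w)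
    (h : (t + 1) * w * (w - 1) < (w + t) * (w + t - 1)) :
    (∀ᶠ n : ℕ in atTop, n * (n + 1) / ((t + 1) * w * (w - 1)) < maxSize n t w (w - 2)) ∧
      {n : ℕ | maxSize n t w (w - 2) = n * (n + 1) / ((t + 1) * w * (w - 1))}.Finite := by
  have hmain : ∀ᶠ n : ℕ in atTop,
      n * (n + 1) / ((t + 1) * w * (w - 1)) < maxSize n t w (w - 2) := by
    obtain ⟨a, c, hac⟩ := exists_repr hw ht h
    have h1 := limit_of_repr hw hac
    have h2 : 1 / (((t : ℝ) + 1) * (w : ℝ) * ((w : ℝ) - 1)) <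
        1 / ((4 * (w : ℝ) - 6) * ((t : ℝ) + 1)) := value_lt hw
    set ρ : ℝ := 1 / (((t : ℝ) + 1) * (w : ℝ) * ((w : ℝ) - 1)) with hρ
    obtain ⟨μ, h3, h4⟩ := exists_between h2
    have t1 : Tendsto (fun n : ℕ => ρ + ρ / (n : ℝ)) atTop (𝓝 (ρ + 0)) :=
      tendsto_const_nhds.add (tendsto_const_div_atTop_nhds_zero_nat ρ)
    rw [add_zero] at t1
    filter_upwards [h1.eventually_const_lt h4, t1.eventually_lt_const h3,
      eventually_ge_atTop 1] with n h5 h6 h7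
    have hn' : (1 : ℝ) ≤ n := by exact_mod_cast h7
    have h8 := h6.trans h5
    rw [lt_div_iff₀ (by positivity)] at h8
    have e1 : (ρ + ρ / (n : ℝ)) * (n : ℝ) ^ 2 = ((n : ℝ) * (n + 1)) * ρ := by
      field_simp
    rw [e1] at h8
    have h9 : ((n * (n + 1) / ((t + 1) * w * (w - 1)) : ℕ) : ℝ) ≤ ((n : ℝ) * (n + 1)) * ρ := by
      refine (Nat.cast_div_le).trans (le_of_eq ?_)
      rw [hρ]
      push_cast [Nat.cast_sub (show 1 ≤ w by omega)]
      ring
    exact_mod_cast lt_of_le_of_lt h9 h8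
  refine ⟨hmain, ?_⟩
  obtain ⟨n₀, hn₀⟩ := eventually_atTop.mp hmain
  refine (Set.finite_lt_nat n₀).subset ?_
  intro n hn
  simp only [Set.mem_ofPred_eq] at hn ⊢
  by_contra hcon
  have := hn₀ n (by omega)
  omega

end Pool.Agent.Results.MP_00ae1c_co.FloorFails
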