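import Mathlib
import Pool.Agent.Work.MP_00ae1c_co.Defs
import Pool.Agent.Work.MP_00ae1c_co.Asym

/-!
# Q1 of MP_00ae1c_co is false, and the true limit

For all `t ≥ 1`, `w ≥ 4` with `(t+1)w(w-1) < (w+t)(w+t-1)` the limit of `C(n,t,w,w-2)/n^2` exists
and equals `1/((4w-6)(t+1))`, which is strictly larger than the value `1/((t+1)w(w-1))` asked about.

Lower bound: take classes consisting of all `w`-subsets of each of `a` blocks of size `2w-3` and
`c` blocks of size `2w-2`, where `t+1 = a(w-2)+c(w-1)`; such classes are packed with a truncated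
transversal design over `ZMod N`, `N` coprime to `(2w-3)!`, recursively inside the groups.
Upper bound: a graph whose `w`-cliques cannot be destroyed by deleting `t` vertices has at least
`(2w-3)(t+1)` edges.
-/

namespace Pool.Agent.Results.MP_00ae1c_co.LimitValue

open Filter Topology Pool.Agent.Work.MP_00ae1c_co

theorem result (t w : ℕ) (ht : 1 ≤ t) (hw : 4 ≤ w)
    (h : (t + 1) * w * (w - 1) < (w + t) * (w + t - 1)) :
    Tendsto (fun n : ℕ => (maxSize n t w (w - 2) : ℝ) / (n : ℝ) ^ 2) atTop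
        (𝓝 (1 / ((4 * (w : ℝ) - 6) * ((t : ℝ) + 1)))) ∧
      1 / (((t : ℝ) + 1) * (w : ℝ) * ((w : ℝ) - 1)) <
        1 / ((4 * (w : ℝ) - 6) * ((t : ℝ) + 1)) ∧
      ¬ Tendsto (fun n : ℕ => (maxSize n t w (w - 2) : ℝ) / (n : ℝ) ^ 2) atTop
        (𝓝 (1 / (((t : ℝ) + 1) * (w : ℝ) * ((w : ℝ) - 1)))) := by
  obtain ⟨a, c, hac⟩ := exists_repr hw ht h
  have h1 := limit_of_repr hw hac
  have h2 : 1 / (((t : ℝ) + 1) * (w : ℝ) * ((w : ℝ) - 1)) <
      1 / ((4 * (w : ℝ) - 6) * ((t : ℝ) + 1)) := value_lt hw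
  exact ⟨h1, h2, fun h3 => h2.ne (tendsto_nhds_unique h3 h1)⟩

end Pool.Agent.Results.MP_00ae1c_co.LimitValue
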